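import Pool.Agent.H365.Perm

/-!
# Split extensions of residually finite groups by elementary abelian groups need not be hyperlinear

`Hyperlinear` (the definition of the problem file), `PropertyT` and `ResiduallyFinite` are defined
in `Pool.Agent.H365.Defs`; `DirectPower X L` (in `Pool.Agent.H365.WreathDefs`) is the group of the
functions from `X` to `L` with finite support.

Idea of the proof. There is a residually finite group `G` with property (T), generated by elements
which conjugate a Kazhdan subgroup `K` to a larger subgroup, although `K` is not normal. In a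
hyperlinear group `P` to which `G` maps, every element which commutes with `K` commutes with the
normal closure of `K` in `G`. This is not the case for the restricted wreath product
`P = L^(G / K) ⋊ G`.
-/

set_option autoImplicit false

namespace Pool.Agent.H365.Old.ExtensionsNotHyperlinear

open Pool.Agent.H365

/-- For every nontrivial group `L` (for example of order two) there is a group `P` which is not
hyperlinear and which is a split extension of a finitely generated, residually finite group with
property (T) by a direct power `L^(X)`: it has a normal subgroup `A` isomorphic to `L^(X)` such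
that `P / A` is such a group and such that the projection `P → P / A` has a section which is a
homomorphism. -/
theorem result (L : Type) [Group L] [Nontrivial L] :
    ∃ (P : Type) (_ : Group P) (A : Subgroup P) (_ : A.Normal),
      (∃ X : Type, Nonempty (A ≃* DirectPower X L)) ∧
      Group.FG (P ⧸ A) ∧ ResiduallyFinite (P ⧸ A) ∧ PropertyT (P ⧸ A) ∧
      (∃ s : P ⧸ A →* P, ∀ q : P ⧸ A, QuotientGroup.mk (s q) = q) ∧ ¬ Hyperlinear P := by
  obtain ⟨G, _, K, hrf, hG, hK, hn, hgen⟩ := exists_pair
  obtain ⟨l, hl⟩ := exists_ne (1 : L)
  let W := WreathProduct L (G ⧸ K) G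
  let A : Subgroup W := (SemidirectProduct.rightHom : W →* G).ker
  let e : W ⧸ A ≃* G := QuotientGroup.quotientKerEquivOfSurjective
    (SemidirectProduct.rightHom : W →* G) SemidirectProduct.rightHom_surjective
  have he : ∀ w : W, e (QuotientGroup.mk w) = w.right := fun w => rfl
  have hA : A = (SemidirectProduct.inl : DirectPower (G ⧸ K) L →* W).range :=
    SemidirectProduct.range_inl_eq_ker_rightHom.symm
  have hT : Pool.Agent.W661.RC.HasT (W ⧸ A) := hasT_quot e.symm.toMonoidHom e.symm.surjective hG
  obtain ⟨k, γ, hγ⟩ := Pool.Agent.N303.KQ.exists_free hT
  refine ⟨W, inferInstance, A, inferInstance, ⟨G ⧸ K, ⟨?_⟩⟩, Group.fg_of_surjective hγ, ?_,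
    propertyT_iff.2 hT, ⟨(SemidirectProduct.inr : G →* W).comp e.toMonoidHom, fun q => ?_⟩,
    not_hyper_semidirect K hG hK hgen hn _ _ (permute_coset K hl)⟩
  · exact (MulEquiv.subgroupCongr hA).trans
      (MonoidHom.ofInjective SemidirectProduct.inl_injective).symm
  · refine rf_of_hom fun q hq => ?_
    obtain ⟨N, h1, h2, h3⟩ := hrf (e q) fun h => hq (e.injective (by rw [h, map_one]))
    refine ⟨G ⧸ N, inferInstance, inferInstance, (QuotientGroup.mk' N).comp e.toMonoidHom,
      fun h => h3 ((QuotientGroup.eq_one_iff _).1 h)⟩
  · apply e.injective
    rw [he]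
    rfl

end Pool.Agent.H365.Old.ExtensionsNotHyperlinear
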