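import Pool.Agent.H365.Simple
import Pool.Agent.H365.FP

/-!
# A finitely presented Kazhdan group without hyperlinear images

`Hyperlinear` (the definition of the problem file) and `PropertyT` are defined in
`Pool.Agent.H365.Defs`.

Idea of the proof. Let `R` be a finitely generated algebra over a finite field with
`R ≅ M_2(R)`, `G = E_3(R)`. In a group with property (T) which is generated by elements that
conjugate a Kazhdan subgroup `K` to a larger subgroup, and in all hyperlinear groups to which it
maps, the centralizer of the image of `K` commutes with the normal closure of `K`. In `G` such a
subgroup `K` commutes with another copy `L` of `G`, which lies in the normal closure of `K`, and `L`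
is perfect with normal closure `G`. So every homomorphism from `G` to a hyperlinear group is
trivial. All this, including property (T) of `G` and of `K`, depends on finitely many relations
of `G` only, so it holds for a finitely presented group which maps onto `G`. A finitely generated
group with these properties has an infinite simple quotient, since it has no finite quotients.
-/

set_option autoImplicit false

namespace Pool.Agent.H365.Old.FinitelyPresented

open Pool.Agent.H365

/-- There is a nontrivial finitely presented group `Γ` with property (T) all of whose homomorphisms
to hyperlinear groups are trivial, and `Γ` has an infinite simple quotient group (which is again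
finitely generated with property (T)) that is not hyperlinear. -/
theorem result :
    ∃ (ι : Type) (R : Set (FreeGroup ι)), Finite ι ∧ R.Finite ∧ Nontrivial (PresentedGroup R) ∧
      PropertyT (PresentedGroup R) ∧
      (∀ (P : Type) [Group P], Hyperlinear P →
        ∀ (j : PresentedGroup R →* P) (g : PresentedGroup R), j g = 1) ∧
      ∃ (M : Subgroup (PresentedGroup R)) (_ : M.Normal),
        IsSimpleGroup (PresentedGroup R ⧸ M) ∧ Infinite (PresentedGroup R ⧸ M) ∧
        PropertyT (PresentedGroup R ⧸ M) ∧ ¬ Hyperlinear (PresentedGroup R ⧸ M) := by
  obtain ⟨ι, h1, R, h2, h3, h4, h5⟩ := exists_fpT
  have h6 := fg_presented R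
  obtain ⟨M, h7, h8, h9, h10, h11⟩ := exists_simple h4 h5
  exact ⟨ι, R, h1, h2, h3, propertyT_iff.2 h4, h5, M, h7, h8, h9, propertyT_iff.2 h10, h11⟩

end Pool.Agent.H365.Old.FinitelyPresented
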