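import Pool.Agent.H365.DP.Res

/-!
# Central extensions by cyclic groups of prime order of residually finite Kazhdan groups

`Hyperlinear` (the definition of the problem file), `PropertyT` and `ResiduallyFinite` are defined
in `Pool.Agent.H365.Defs`.

Idea of the proof. Let `(G, K)` be the Kazhdan pair of the library: `G` is residually finite, `K` is
not normal in `G`, but conjugation by suitable generators of `G` maps `K` into itself. Let `k` be a
finite field of characteristic `p`, `R = M_3(k[G])`, `λ : R → ZMod p` an additive map such that `K`
is the set of the `g` with `g - 1` in the left ideal `J = {W | λ(R W) = 0}`. The group `E_3` over a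
group algebra of a Hall type group over `R`, extended by units of `R`, has a residually finite
Kazhdan subgroup `D` with a normal Kazhdan subgroup `M` such that `D / M` is `(R / J) ⋊ 𝒢`; it acts
faithfully on the additive group `R × ZMod p`, which is residually finite modulo `0 × ZMod p`. A
theorem of the library puts this module in the centre of a normal Kazhdan subgroup `N` of a group
`P ⊇ D` for which `P / (0 × ZMod p)` is residually finite. If `P` was hyperlinear, then so would be
`N D / N M = (R / J) ⋊ 𝒢` (library: quotients of normalisers by Kazhdan subgroups which are their
own bicommutants). But in this group `1 ∈ R / J` commutes with `K` and not with its normal closure.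
-/

set_option autoImplicit false

namespace Pool.Agent.H365.Old.KazhdanPrimeCover

open Pool.Agent.H365

/-- For every prime number `p` there are a finitely generated group `P` with property (T) and a central
subgroup `Z` of order `p` in `P` such that `P / Z` is residually finite and `P` is not hyperlinear; every
subgroup of finite index of `P` contains `Z`. -/
theorem result (p : ℕ) (hp : p.Prime) :
    ∃ (P : Type) (_ : Group P) (Z : Subgroup P) (_ : Z.Normal),
      Nat.card Z = p ∧ Z ≤ Subgroup.center P ∧ Group.FG P ∧ PropertyT P ∧
      ResiduallyFinite (P ⧸ Z) ∧
      (∀ H : Subgroup P, H.FiniteIndex → Z ≤ H) ∧ ¬ Hyperlinear P :=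
  Pool.Agent.H365.DP.full p hp

end Pool.Agent.H365.Old.KazhdanPrimeCover
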